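import Pool.Agent.Work.Monodromy6.All6
import Pool.Agent.Work.Monodromy.FinalB

/-!
The monodromy conjecture for the topological zeta function of formulas: the smallest class of
polynomials which contains all nonconstant polynomials in two variables, all nonconstant polynomials
in any number of variables with finitely many critical points, all of them semi-quasi-homogeneous,
and the products of linear forms in powers of the variables, and is closed under sums and products
in separate variables, compositions with polynomials in one variable, additional variables and
automorphisms.
-/

namespace Pool.Agent.Results.MP_a2a574_ag.Formulas

open MvPolynomial Pool.Agent.Mono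

/-- For every formula `f` and every pole `s` of its topological zeta function, `exp(2πis)` is a
monodromy eigenvalue of `f`. -/
theorem result {n : ℕ} (f : MvPolynomial (Fin n) ℂ) (hf : Formula (Fin n) f) (E : HodgeMeasure)
    (R : RatFunc ℚ) (hR : IsTopologicalZeta E f R) (s : ℂ)
    (hs : Polynomial.aeval s R.denom = 0) :
    IsMonodromyEigenvalue f (Complex.exp (2 * Real.pi * Complex.I * s)) :=
  (isMonodromyEigenvalue_iff _ _).2 (RO.mc_formula hf E R hR s hs)

end Pool.Agent.Results.MP_a2a574_ag.Formulas
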