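import Pool.Agent.Work.Monodromy6.All6
import Pool.Agent.Work.Monodromy.FinalB

/-!
The monodromy conjecture for the twisted topological zeta functions of formulas: the smallest class
of polynomials which contains all nonconstant polynomials in two variables, all nonconstant
polynomials in any number of variables with finitely many critical points, all of them
semi-quasi-homogeneous, and the products of linear forms in powers of the variables, and is closed
under sums and products in separate variables, compositions with polynomials in one variable,
additional variables and automorphisms.
-/

namespace Pool.Agent.Results.MP_b22d1f_ag.Formulas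

open MvPolynomial Pool.Agent.Mono

/-- For every formula `f`, every `e ≥ 1` and every pole `s` of the `e`-twisted topological zeta
function of `f`, `exp(2πis)` is a monodromy eigenvalue of `f`. -/
theorem result {n : ℕ} (f : MvPolynomial (Fin n) ℂ) (hf : Formula (Fin n) f) (E : HodgeMeasure)
    (e : ℕ) (he : 1 ≤ e) (R : RatFunc ℚ) (hR : IsTwTopZeta E f e R) (s : ℂ)
    (hs : Polynomial.aeval s R.denom = 0) :
    IsMonodromyEigenvalue f (Complex.exp (2 * Real.pi * Complex.I * s)) :=
  (isMonodromyEigenvalue_iff _ _).2 (RO.mc_formula_tw hf E e he R hR s hs)

end Pool.Agent.Results.MP_b22d1f_ag.Formulas
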